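import Mathlib
import Pool.Agent.H53.ZF.Pcs

set_option autoImplicit false
open Finset

/-! # (c2), T6: uniqueness of the far strand

Without four arms between `BB (2 t)` and `BB (r / 2)` there is one corner at which the strands enter
`BB (2 t)` from far away (`H65.G1.far_unique`). The backward strand of the centre and the forward strand of
the right exit, and also the backward strand of the left exit, pass through this corner. -/

namespace Pool.Agent.H46.ZFT

open Pool.Agent.H75.Perc Pool.Agent.H75.TwoArm Pool.Agent.Q1 Pool.Agent.H47.NC Pool.Agent.ZF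
open Pool.Agent.H99.NC Pool.Agent.Q1.M6c Pool.Agent.H65.Four2 Pool.Agent.H53.ZF
open Pool.Agent.Q1.M6b.Gd (FarIn)

variable {w In Out B : Finset (ℤ × ℤ)} {c x z p : ℤ × ℤ}

/-- reversal of a path -/
lemma rev_pv {j : ℕ} (h : (pv w)^[j] c = x) :
    (nx w)^[j] x = c ∧ ∀ i < j, lab ((nx w)^[i] x) = plab ((pv w)^[j - 1 - i] c) := by
  induction j generalizing x with
  | zero => exact ⟨h.symm, fun i hi => absurd hi (by omega)⟩
  | succ j ih =>
    rw [Function.iterate_succ_apply'] at h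
    obtain ⟨h1, h2⟩ := ih rfl
    have h3 : nx w x = (pv w)^[j] c := by rw [← h, H75.TwoArm.nx_pv]
    refine ⟨by rw [Function.iterate_succ_apply, h3, h1], ?_⟩
    intro i hi
    rcases Nat.eq_zero_or_pos i with h0 | h0
    · subst h0
      change lab x = _
      rw [← h, H75.TwoArm.lab_pv]
      simp
    · obtain ⟨i', rfl⟩ : ∃ i', i = i' + 1 := ⟨i - 1, by omega⟩
      rw [Function.iterate_succ_apply, h3, h2 i' (by omega)]
      congr 2
      omega

lemma rev_nx {j : ℕ} (h : (nx w)^[j] x = c) :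
    (pv w)^[j] c = x ∧ ∀ i < j, plab ((pv w)^[i] c) = lab ((nx w)^[j - 1 - i] x) := by
  have h1 : (pv w)^[j] c = x := by
    rw [← h]
    exact Function.LeftInverse.iterate (pv_nx w) j x
  refine ⟨h1, fun i hi => ?_⟩
  rw [(rev_pv h1).2 (j - 1 - i) (by omega)]
  congr 2
  omega

lemma bx_iff : BX B w c x ↔ plab x ∉ B ∧ ∃ j : ℕ, (nx w)^[j] x = c ∧ ∀ i < j, lab ((nx w)^[i] x) ∈ B := by
  constructor
  · rintro ⟨j, h1, h2, h3⟩
    obtain ⟨h4, h5⟩ := rev_pv h1
    exact ⟨h2, j, h4, fun i hi => by rw [h5 i hi]; exact h3 _ (by omega)⟩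
  · rintro ⟨h2, j, h1, h3⟩
    obtain ⟨h4, h5⟩ := rev_nx h1
    exact ⟨j, h4, h2, fun i hi => by rw [h5 i hi]; exact h3 _ (by omega)⟩

/-- going back from a corner in front of `In`, one finds a far entrance -/
lemma back_far (hz : lab z ∈ In) (hout : Leave Out w z) : ∃ z0 m, FarIn In Out w z0 ∧
    (nx w)^[m] z0 = z ∧ ∀ i < m, lab ((nx w)^[i] z0) ∈ Out := by
  classical
  obtain ⟨x, hx⟩ := (H75.Four.leave_exits hout).2
  obtain ⟨h1, j, h2, h3⟩ := bx_iff.1 hx
  have hex : ∃ i, lab ((nx w)^[i] x) ∈ In := ⟨j, by rw [h2]; exact hz⟩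
  have hij : Nat.find hex ≤ j := Nat.find_min' hex (by rw [h2]; exact hz)
  refine ⟨(nx w)^[Nat.find hex] x, j - Nat.find hex, ⟨Nat.find_spec hex, x, Nat.find hex, h1, rfl,
    fun i hi => mem_sdiff.2 ⟨h3 i (by omega), Nat.find_min hex hi⟩⟩, ?_, fun i hi => ?_⟩
  · rw [← Function.iterate_add_apply, Nat.sub_add_cancel hij, h2]
  · rw [← Function.iterate_add_apply]
    exact h3 _ (by omega)

/-- a path which comes from outside -/
lemma far_of_path (n : ℕ) : ∀ p : ℤ × ℤ, plab p ∉ Out → (nx w)^[n] p = z → lab z ∈ In →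
    (∀ i < n, lab ((nx w)^[i] p) ∉ In) → FarIn In Out w z := by
  induction n using Nat.strong_induction_on with
  | _ n ih =>
    intro p h1 h2 h3 h4
    by_cases h5 : ∀ i < n, lab ((nx w)^[i] p) ∈ Out
    · exact ⟨h3, p, n, h1, h2, fun i hi => mem_sdiff.2 ⟨h5 i hi, h4 i hi⟩⟩
    · push Not at h5
      obtain ⟨i, hi, h6⟩ := h5
      refine ih (n - (i + 1)) (by omega) ((nx w)^[i + 1] p) ?_ ?_ h3 ?_
      · rw [Function.iterate_succ_apply', H75.TwoArm.plab_nx]; exact h6
      · rw [← Function.iterate_add_apply, Nat.sub_add_cancel (by omega), h2]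
      · intro j hj
        rw [← Function.iterate_add_apply]
        exact h4 _ (by omega)

lemma BB_eq (m : ℤ) : H75.TwoArm.BB m = Bq (0, 0) m := by
  unfold H75.TwoArm.BB Bq
  simp

/-- **T6** uniqueness of the far strand. -/
theorem t6 : T6 := by
  intro M1 k Mh t s r L R u hM1 hP w c t1 t2 hc hD hL
  obtain ⟨pt1, phs, phr, phL, phR, pu1, phu1, phu2⟩ := hP
  obtain ⟨d1, d2, dsep, ⟨n, f1, f2⟩, ⟨n', b1, b2⟩, dfour, dfourd⟩ := hD
  -- sizes
  have hs : t ≤ s := by
    rw [phs]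
    have : (1 : ℤ) ≤ M1 := by exact_mod_cast hM1
    nlinarith
  have h4 : (1 : ℤ) ≤ 4 ^ k := one_le_pow₀ (by norm_num)
  have hr : 16 * t ≤ r := by
    rw [phr]
    nlinarith
  have hrL : r ≤ L := by
    rw [phL]
    nlinarith
  have e1 : Bq (0, 0) (2 * t) ⊆ Bq (0, 0) (r / 2) := by
    intro e he
    unfold Bq at he ⊢
    rw [mem_Bx] at he ⊢
    simp only at he ⊢
    omega
  have e2 : Bq (0, 0) (r / 2) ⊆ H75.TwoArm.BE r (2 * L) := by
    intro e he
    unfold Bq at he
    unfold H75.TwoArm.BE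
    rw [mem_Bx] at he ⊢
    simp only at he ⊢
    omega
  rw [BB_eq] at f1 f2 b1 b2 hL
  rw [BB_eq] at dfourd
  -- labels at the centre
  have hc1 : lab c ∈ Bq (0, 0) (2 * t) := by
    unfold Bq
    rw [mem_Bx]
    rcases hc with h | h | h | h <;> subst h <;> simp only [lab] <;> norm_num <;> omega
  -- uniqueness
  have uniq : ∀ {z z' : ℤ × ℤ}, FarIn (Bq (0, 0) (2 * t)) (Bq (0, 0) (r / 2)) w z →
      FarIn (Bq (0, 0) (2 * t)) (Bq (0, 0) (r / 2)) w z' → z = z' := by
    intro z z' h h'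
    exact H65.G1.far_unique (by omega) (by omega) (Subset.refl _) dfour dfourd h h'
  -- the strand which enters at the height `t2`
  have hp2 : plab (2 * r + 1, 2 * t2 + 1) ∉ H75.TwoArm.BE r (2 * L) := by
    unfold H75.TwoArm.BE
    rw [mem_Bx]
    have g1 : (2 * t2 + 1) % 2 = 1 := by omega
    have g2 : (2 * r + 1) % 2 = 1 := by omega
    simp only [plab, g1, g2, one_ne_zero, if_false]
    omega
  have hp1 : lab (2 * r + 1, 2 * t1) ∉ H75.TwoArm.BE r (2 * L) := by
    unfold H75.TwoArm.BE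
    rw [mem_Bx]
    have g1 : (2 * t1) % 2 = 0 := by omega
    have g2 : (2 * r + 1) % 2 = 1 := by omega
    simp only [lab, g1, g2, one_ne_zero, if_false, if_true]
    omega
  have z2 : FarIn (Bq (0, 0) (2 * t)) (Bq (0, 0) (r / 2)) w ((nx w)^[n] (2 * r + 1, 2 * t2 + 1)) :=
    far_of_path n _ (fun h => hp2 (e2 h)) rfl f1 fun i hi => (mem_sdiff.1 (f2 i hi)).2
  -- the strand of `c`
  obtain ⟨z3, m3, g1, g2, g3⟩ := back_far hc1 hL
  have g4 := uniq z2 g1
  -- the strand which leaves at the height `t1`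
  set y1 := (pv w)^[n'] (2 * r + 1, 2 * t1) with hy1
  obtain ⟨r1, r2⟩ := rev_pv hy1.symm
  have k0 : nx w (pv w y1) = y1 := H75.TwoArm.nx_pv w y1
  have k1 : lab (pv w y1) ∈ Bq (0, 0) (2 * t) := by
    rw [H75.TwoArm.lab_pv]; exact b1
  have k2 : Leave (Bq (0, 0) (r / 2)) w (pv w y1) := by
    refine ⟨n' + 1, ?_⟩
    rw [Function.iterate_succ_apply, k0, r1]
    exact fun h => hp1 (e2 h)
  obtain ⟨z4, m4, q1, q2, q3⟩ := back_far k1 k2
  have q4 := uniq z2 q1
  constructor
  · -- forward exit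
    -- path from `z4` to the exit
    have a1 : (nx w)^[n' + 1 + m4] z4 = (2 * r + 1, 2 * t1) := by
      rw [Function.iterate_add_apply, q2, Function.iterate_succ_apply, k0, r1]
    have a2 : ∀ i < n' + 1 + m4, lab ((nx w)^[i] z4) ∈ H75.TwoArm.BE r (2 * L) := by
      intro i hi
      by_cases him : i < m4
      · exact e2 (q3 i him)
      · obtain ⟨j, rfl⟩ : ∃ j, i = j + m4 := ⟨i - m4, by omega⟩
        rw [Function.iterate_add_apply, q2]
        rcases Nat.eq_zero_or_pos j with h0 | h0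
        · subst h0; exact e2 (e1 k1)
        · obtain ⟨j', rfl⟩ : ∃ j', j = j' + 1 := ⟨j - 1, by omega⟩
          rw [Function.iterate_succ_apply, k0, r2 j' (by omega)]
          exact (mem_sdiff.1 (b2 _ (by omega))).1
    have a3 : z3 = z4 := g4.symm.trans q4
    have a4 : m3 ≤ n' + 1 + m4 := by
      by_contra hlt
      have h5 := g3 (n' + 1 + m4) (by omega)
      rw [a3, a1] at h5
      exact hp1 (e2 h5)
    refine ⟨n' + 1 + m4 - m3, ?_, hp1, fun i hi => ?_⟩
    · rw [← g2, ← Function.iterate_add_apply, Nat.sub_add_cancel a4, a3, a1]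
    · rw [← g2, ← Function.iterate_add_apply, a3]
      exact a2 _ (by omega)
  · -- backward exit
    refine bx_iff.2 ⟨hp2, m3 + n, ?_, fun i hi => ?_⟩
    · rw [Function.iterate_add_apply, g4, g2]
    · by_cases him : i < n
      · exact (mem_sdiff.1 (f2 i him)).1
      · obtain ⟨j, rfl⟩ : ∃ j, i = j + n := ⟨i - n, by omega⟩
        rw [Function.iterate_add_apply, g4]
        exact e2 (g3 j (by omega))

end Pool.Agent.H46.ZFT
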